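import Pool.Agent.Helper46.QF.EndW
import Pool.Agent.Helper43.QK.Inst

/-!
PROJECT AUT (MP_19fde8_al, S00834), block A: `centQ` (the centre of the image of `O` on `Wp` is trivial).
-/

set_option autoImplicit false

namespace QC44

open QA70 QF46

/-- the functional `V → k`, first coordinate -/
noncomputable def c0 : V →ₗ[k] k := FM.toK ∘ₗ FM.proj 0

theorem tv_apply {A : FM} (x : A) (v : V) : tv x v = c0 v • x := rfl

theorem psum_zero {ι : Type} [Fintype ι] [DecidableEq ι] {A B : FM} (f : ι → (A →ₗ[k] B))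
    (hf : ∀ i, f i = 0) (x : FM.pow ι A) : psum f x = 0 := by
  rw [psum_apply]
  apply Finset.sum_eq_zero
  intro i _
  rw [hf i]
  rfl

theorem eval1 (m : V) (y : V) : (pt1 M m).f1 y = c0 y • m := rfl

theorem eval4 (m : V) (y : V) : (pt4 M m).f4 y = c0 y • m := rfl

theorem eval2 (m : M2) (y : M2) : (pt2 M m).f2 y = c0 (FM.fst y) • m := by
  have h : (pt2 M m).f2 y = tv m (FM.fst y) +
      psum (fun l => M.b l ∘ₗ (0 : V →ₗ[k] M.U1)) (FM.fst (FM.snd y)) +
      M.r ((0 : V →ₗ[k] M.U4) (FM.snd (FM.snd y))) := rfl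
  rw [h, psum_zero _ (fun l => LinearMap.comp_zero _), LinearMap.zero_apply, map_zero, add_zero,
    add_zero]
  rfl

theorem hm2_zero (y : M2) : hm2 M 0 0 0 y = 0 := by
  have h : hm2 M 0 0 0 y = (0 : V →ₗ[k] M.U2) (FM.fst y) +
      psum (fun l => M.b l ∘ₗ (0 : V →ₗ[k] M.U1)) (FM.fst (FM.snd y)) +
      M.r ((0 : V →ₗ[k] M.U4) (FM.snd (FM.snd y))) := rfl
  rw [h, psum_zero _ (fun l => LinearMap.comp_zero _), LinearMap.zero_apply, LinearMap.zero_apply,
    map_zero, add_zero, add_zero]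

theorem eval3 (m : M3) (y : M3) : (pt3 M m).f3 y = c0 (FM.fst y) • m := by
  have h : (pt3 M m).f3 y = tv m (FM.fst y) +
      psum (fun ij : Fin dd × Fin 2 => M.a ij.1 ij.2 ∘ₗ (0 : V →ₗ[k] M.U1)) (FM.fst (FM.snd y)) +
      psum (fun ij : Fin dd × Fin 2 => M.c ij.1 ij.2 ∘ₗ hm2 M 0 0 0)
        (FM.fst (FM.snd (FM.snd y))) +
      psum (fun i : Fin dd => M.u i ∘ₗ (0 : V →ₗ[k] M.U4)) (FM.snd (FM.snd (FM.snd y))) := rfl
  rw [h, psum_zero _ (fun l => LinearMap.comp_zero _), psum_zero _ (fun l => LinearMap.comp_zero _),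
    psum_zero _ (fun l => ?_), add_zero, add_zero, add_zero]
  · rfl
  · ext y
    show M.c l.1 l.2 (hm2 M 0 0 0 y) = 0
    rw [hm2_zero, map_zero]

/-- a map which is `m ↦ c • m` and injective on a nonzero space is the identity -/
theorem scalar_id {A : FM} {f : A →ₗ[k] A} {c : k} (hf : ∀ m, f m = c • m)
    (hinj : ∀ m, f m = 0 → m = 0) : ∀ m, f m = m := by
  intro m
  have hc : c = 0 ∨ c = 1 := by
    have : ∀ c : ZMod 2, c = 0 ∨ c = 1 := by decide
    exact this c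
  rcases hc with hc | hc
  · have h1 : f m = 0 := by rw [hf, hc, zero_smul]
    have h2 := hinj m h1
    rw [h2, map_zero]
  · rw [hf, hc, one_smul]

/-- a unit of `MM` whose restriction commutes with the restriction of `MM` restricts to `1` -/
theorem rM_eq_one (u : MMˣ) (hu : ∀ x : MM, resM x * resM (u : MM) = resM (u : MM) * resM x) :
    resM (u : MM) = 1 := by
  have hinv : resM ((u⁻¹ : MMˣ) : MM) * resM (u : MM) = 1 := by
    rw [← map_mul, Units.inv_mul, map_one]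
  have i1 : ∀ m : V, (u : MM).f1 m = 0 → m = 0 := by
    intro m hm
    have h := LinearMap.congr_fun (congrArg QHom.f1 hinv) m
    have h2 : (resM ((u⁻¹ : MMˣ) : MM)).f1 ((u : MM).f1 m) = m := h
    rw [← h2, hm, map_zero]
  have i2 : ∀ m : M2, (u : MM).f2 m = 0 → m = 0 := by
    intro m hm
    have h := LinearMap.congr_fun (congrArg QHom.f2 hinv) m
    have h2 : (resM ((u⁻¹ : MMˣ) : MM)).f2 ((u : MM).f2 m) = m := h
    rw [← h2, hm, map_zero]
  have i3 : ∀ m : M3, (u : MM).f3 m = 0 → m = 0 := by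
    intro m hm
    have h := LinearMap.congr_fun (congrArg QHom.f3 hinv) m
    have h2 : (resM ((u⁻¹ : MMˣ) : MM)).f3 ((u : MM).f3 m) = m := h
    rw [← h2, hm, map_zero]
  have i4 : ∀ m : V, (u : MM).f4 m = 0 → m = 0 := by
    intro m hm
    have h := LinearMap.congr_fun (congrArg QHom.f4 hinv) m
    have h2 : (resM ((u⁻¹ : MMˣ) : MM)).f4 ((u : MM).f4 m) = m := h
    rw [← h2, hm, map_zero]
  refine QHom.ext (FM.to_Z_eq _ _) (LinearMap.ext ?_) (LinearMap.ext ?_) (LinearMap.ext ?_)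
    (LinearMap.ext ?_)
  · apply scalar_id (f := (u : MM).f1) (c := c0 ((u : MM).f1 (eV 0))) _ i1
    intro m
    have h := LinearMap.congr_fun (congrArg QHom.f1 (hu (pt1 M m))) (eV 0)
    have h2 : (pt1 M m).f1 ((u : MM).f1 (eV 0)) = (u : MM).f1 ((pt1 M m).f1 (eV 0)) := h
    rw [pt1_f1, eval1] at h2
    exact h2.symm
  · apply scalar_id (f := (u : MM).f2) (c := c0 (FM.fst ((u : MM).f2 (vM2 (eV 0))))) _ i2
    intro m
    have h := LinearMap.congr_fun (congrArg QHom.f2 (hu (pt2 M m))) (vM2 (eV 0))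
    have h2 : (pt2 M m).f2 ((u : MM).f2 (vM2 (eV 0))) = (u : MM).f2 ((pt2 M m).f2 (vM2 (eV 0))) := h
    rw [pt2_f2, eval2] at h2
    exact h2.symm
  · apply scalar_id (f := (u : MM).f3) (c := c0 (FM.fst ((u : MM).f3 (vM3 (eV 0))))) _ i3
    intro m
    have h := LinearMap.congr_fun (congrArg QHom.f3 (hu (pt3 M m))) (vM3 (eV 0))
    have h2 : (pt3 M m).f3 ((u : MM).f3 (vM3 (eV 0))) = (u : MM).f3 ((pt3 M m).f3 (vM3 (eV 0))) := h
    rw [pt3_f3, eval3] at h2
    exact h2.symm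
  · apply scalar_id (f := (u : MM).f4) (c := c0 ((u : MM).f4 (eV 0))) _ i4
    intro m
    have h := LinearMap.congr_fun (congrArg QHom.f4 (hu (pt4 M m))) (eV 0)
    have h2 : (pt4 M m).f4 ((u : MM).f4 (eV 0)) = (u : MM).f4 ((pt4 M m).f4 (eV 0)) := h
    rw [pt4_f4, eval4] at h2
    exact h2.symm

/-- `centQ`: if `o` commutes with the action of `O` on `Wp = QHom Mp Rp`, then `rM o = 1`. -/
theorem centQ_of (cogenP : ∀ d : QHom Mp Mp, (∀ y : QHom Mp Rp, y.comp d = 0) → d = 0)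
    (hspan : AddSubgroup.closure (Set.range (Units.val : MMˣ → MM)) = ⊤) (o : MMˣ)
    (h : ∀ (x : MMˣ) (y : QHom Mp Rp), y.comp (resM ((o : MM) * (x : MM))) =
      y.comp (resM ((x : MM) * (o : MM)))) : resM (o : MM) = 1 := by
  apply rM_eq_one
  intro γ
  have hγ : γ ∈ AddSubgroup.closure (Set.range (Units.val : MMˣ → MM)) := by
    rw [hspan]
    exact AddSubgroup.mem_top γ
  refine AddSubgroup.closure_induction
    (p := fun γ _ => QF46.resM γ * QF46.resM (o : MM) = QF46.resM (o : MM) * QF46.resM γ) ?_ ?_ ?_ ?_ hγ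
  · rintro _ ⟨x, rfl⟩
    rw [← map_mul, ← map_mul, ← sub_eq_zero]
    apply cogenP
    intro y
    have h1 : y.comp (resM ((x : MM) * (o : MM)) - resM ((o : MM) * (x : MM))) =
        y.comp (resM ((x : MM) * (o : MM))) - y.comp (resM ((o : MM) * (x : MM))) := by
      rw [eq_sub_iff_add_eq, ← QHom.comp_add, sub_add_cancel]
    rw [h1, h x y, sub_self]
  · rw [map_zero, zero_mul, mul_zero]
  · intro x y _ _ hx hy
    rw [map_add, add_mul, mul_add, hx, hy]
  · intro x _ hx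
    rw [map_neg, neg_mul, mul_neg, hx]

/-- `u : MM` with `rM u = 1` acts trivially on `QHom M Rp` -/
theorem comp_of_rM {u : MM} (hu : QF46.resM u = 1) (y : QHom M Rp) : y.comp u = y := by
  refine QHom.ext (FM.to_Z_eq _ _) ?_ ?_ ?_ ?_
  · have h : u.f1 = LinearMap.id := congrArg QHom.f1 hu
    show y.f1 ∘ₗ u.f1 = y.f1
    rw [h]
    rfl
  · have h : u.f2 = LinearMap.id := congrArg QHom.f2 hu
    show y.f2 ∘ₗ u.f2 = y.f2
    rw [h]
    rfl
  · have h : u.f3 = LinearMap.id := congrArg QHom.f3 hu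
    show y.f3 ∘ₗ u.f3 = y.f3
    rw [h]
    rfl
  · have h : u.f4 = LinearMap.id := congrArg QHom.f4 hu
    show y.f4 ∘ₗ u.f4 = y.f4
    rw [h]
    rfl

/-- `centQ` for `Q = QHom M Rp`, from cogeneration of `Mp` by `Rp`. -/
theorem centQ (cogenM : ∀ d : MM, (∀ y : QHom M Rp, y.comp d = 0) → QF46.resM d = 0)
    (hspan : AddSubgroup.closure (Set.range (Units.val : MMˣ → MM)) = ⊤) (o : MMˣ)
    (h : ∀ (x : MMˣ) (y : QHom M Rp), o • x • y = x • o • y) (y : QHom M Rp) : o • y = y := by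
  rw [aut_smul_def]
  apply comp_of_rM
  apply rM_eq_one
  intro γ
  have hγ : γ ∈ AddSubgroup.closure (Set.range (Units.val : MMˣ → MM)) := by
    rw [hspan]
    exact AddSubgroup.mem_top γ
  refine AddSubgroup.closure_induction
    (p := fun γ _ => QF46.resM γ * QF46.resM ((o⁻¹ : MMˣ) : MM) =
      QF46.resM ((o⁻¹ : MMˣ) : MM) * QF46.resM γ) ?_ ?_ ?_ ?_ hγ
  · rintro _ ⟨x, rfl⟩
    rw [← map_mul, ← map_mul, ← sub_eq_zero, ← map_sub]
    apply cogenM
    intro y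
    have h1 : y.comp ((x : MM) * ((o⁻¹ : MMˣ) : MM) - ((o⁻¹ : MMˣ) : MM) * (x : MM)) =
        y.comp ((x : MM) * ((o⁻¹ : MMˣ) : MM)) - y.comp (((o⁻¹ : MMˣ) : MM) * (x : MM)) := by
      rw [eq_sub_iff_add_eq, ← QHom.comp_add, sub_add_cancel]
    have h2 := h x⁻¹ y
    rw [aut_smul_def, aut_smul_def, aut_smul_def, aut_smul_def, inv_inv] at h2
    have h3 : y.comp ((x : MM) * ((o⁻¹ : MMˣ) : MM)) = y.comp (((o⁻¹ : MMˣ) : MM) * (x : MM)) := h2
    rw [h1, h3, sub_self]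
  · rw [map_zero, zero_mul, mul_zero]
  · intro x y _ _ hx hy
    rw [map_add, add_mul, mul_add, hx, hy]
  · intro x _ hx
    rw [map_neg, neg_mul, mul_neg, hx]

end QC44
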